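import Pool.Agent.Y600.DC.Defs

/-!
# Domination in balanced chordal graphs: statements of the blocks
-/

namespace Pool.Agent.Y600.DC

open Pool.Agent.NPC Pool.Agent.NPC.R671

variable {V : Type}

/-- equal or adjacent -/
def Close (G : SimpleGraph V) (x y : V) : Prop := x = y ∨ G.Adj x y

/-- no odd special cycle in the closed neighbourhood matrix -/
def NbBalanced (G : SimpleGraph V) : Prop :=
  ∀ m : ℕ, Odd m → 3 ≤ m → ∀ u v : ZMod m → V, Function.Injective u → Function.Injective v →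
    ¬ ∀ i j, Close G (u i) (v j) ↔ (j = i ∨ j = i + 1)

/-- no odd special cycle in the incidence matrix of a hypergraph with edges `{x | R i x}` -/
def RelBalanced {I V : Type} (R : I → V → Prop) : Prop :=
  ∀ m : ℕ, Odd m → 3 ≤ m → ∀ (e : ZMod m → I) (x : ZMod m → V), Function.Injective x →
    ¬ ∀ i j, R (e i) (x j) ↔ (j = i ∨ j = i + 1)

/-- **DC-NB.** -/
def S_NB : Prop := ∀ (V : Type) [Finite V] (G : SimpleGraph V), Chordal G → Balanced G → NbBalanced G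

/-- **DC-BICOL.** (Berge) -/
def S_BICOL : Prop := ∀ (I V : Type) (R : I → V → Prop), RelBalanced R → ∀ W : Finset V,
  ∃ c : V → Bool, ∀ i, (∃ x ∈ W, ∃ y ∈ W, x ≠ y ∧ R i x ∧ R i y) →
    ∀ b : Bool, ∃ x ∈ W, R i x ∧ c x = b

/-- **DC-GOOD.** (Berge) -/
def S_GOOD : Prop := ∀ (I V : Type) [Finite I] [Finite V] (R : I → V → Prop), RelBalanced R →
  ∀ m : ℕ, 1 ≤ m → (∀ i, m ≤ {x | R i x}.ncard) → ∃ c : V → Fin m, ∀ i b, ∃ x, R i x ∧ c x = b

open Classical in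
/-- **DC-ROUND.** -/
def S_ROUND : Prop := ∀ (I V : Type) [Finite I] [Fintype V] (R : I → V → Prop), RelBalanced R →
  ∀ (a : V → ℕ) (m : ℕ), 1 ≤ m → (∀ i, m ≤ ∑ x ∈ Finset.univ.filter (fun x => R i x), a x) →
    ∃ D : Finset V, (∀ i, ∃ x ∈ D, R i x) ∧ m * D.card ≤ ∑ x, a x

open Classical in
/-- number of rounds `τ < t` in which the chosen vertex is close to `v` -/
noncomputable def cnt {n : ℕ} (G : SimpleGraph (Fin n)) (pick : ℕ → Fin n) (t : ℕ) (v : Fin n) : ℕ :=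
  ((Finset.range t).filter (fun τ => Close G v (pick τ))).card

open Classical in
/-- weight of the closed neighbourhood of `u` before round `t` -/
noncomputable def load {n : ℕ} (G : SimpleGraph (Fin n)) (pick : ℕ → Fin n) (t : ℕ) (u : Fin n) : ℕ :=
  ∑ v ∈ Finset.univ.filter (fun v => Close G v u),
    (2 * n + 1) ^ cnt G pick t v * (2 * n + 2) ^ (t - cnt G pick t v)

/-- every choice before round `T` is greedy -/
def Greedy {n : ℕ} (G : SimpleGraph (Fin n)) (pick : ℕ → Fin n) (T : ℕ) : Prop :=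
  ∀ t < T, ∀ u, load G pick t u ≤ load G pick t (pick t)

/-- the number of rounds -/
def rounds (n : ℕ) : ℕ := 8 * (n + 1) ^ 4

/-- **DC-MWU.** -/
def S_MWU : Prop := ∀ (n : ℕ) (G : SimpleGraph (Fin n)) (pick : ℕ → Fin n),
  Greedy G pick (rounds n) → ∀ D : Finset (Fin n), Dominating G D → ∀ v,
    rounds n < (D.card + 1) * cnt G pick (rounds n) v

/-- **DC-ALG.** -/
def S_ALG : Prop := ∃ A : List Bool → List Bool, PolyTime A ∧
  (∀ (G : SimpleGraph (Fin 0)) (k : ℕ), A (bits (adjMatrix G, k)) = [true]) ∧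
  ∀ (n : ℕ) (G : SimpleGraph (Fin n)) (k : ℕ), 0 < n → ∃ pick : ℕ → Fin n,
    Greedy G pick (rounds n) ∧ (A (bits (adjMatrix G, k)) = [true] ↔
      ∀ v, rounds n < (k + 1) * cnt G pick (rounds n) v)

/-- adjacency of the graph of a multigraph with vertices `S` and edges `e` joining `s e`, `t e`
(one direction) -/
def dAdj {S E : Type} (s t : E → S) : S ⊕ (E × Fin 5) → S ⊕ (E × Fin 5) → Prop
  | Sum.inl x, Sum.inl y => x ≠ y
  | Sum.inl x, Sum.inr (e, i) => i = 0 ∨ i = 1 ∨ (i = 2 ∧ x = s e) ∨ (i = 4 ∧ x = t e)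
  | Sum.inr (e, i), Sum.inr (f, j) => e = f ∧ ((i = 0 ∧ j = 1) ∨ (i = 0 ∧ j = 2) ∨ (i = 0 ∧ j = 3) ∨
      (i = 1 ∧ j = 3) ∨ (i = 1 ∧ j = 4))
  | Sum.inr _, Sum.inl _ => False

/-- The graph: `S` is a clique joined completely to the edges `a_e b_e` (`a_e = (e,0)`,
`b_e = (e,1)`), and `(e,2)`, `(e,3)`, `(e,4)` are ears on `s_e a_e`, `a_e b_e`, `b_e t_e`. -/
def dGraph {S E : Type} (s t : E → S) : SimpleGraph (S ⊕ (E × Fin 5)) :=
  SimpleGraph.fromRel (dAdj s t)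

/-- **DC-CHD.** -/
def S_CHD : Prop := ∀ (S E : Type) (s t : E → S), Chordal (dGraph s t)

/-- **DC-SUN.** -/
def S_SUN : Prop := ∀ (S E : Type) (s t : E → S), (∀ e, s e ≠ t e) → NoOddSun (dGraph s t)

/-- **DC-UNB.** -/
def S_UNB : Prop := ¬ Balanced (dGraph (fun i : ZMod 3 => i) (fun i => i + 1))

/-- **DC-DOM.** -/
def S_DOM : Prop := ∀ (S E : Type) [Fintype S] [Fintype E] [Nonempty E] (s t : E → S) (c : ℕ),
  (∃ D : Finset (S ⊕ (E × Fin 5)), D.card ≤ c + Fintype.card E ∧ Dominating (dGraph s t) D) ↔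
    ∃ C : Finset S, C.card ≤ c ∧ ∀ e, s e ∈ C ∨ t e ∈ C

/-- **DC-HARD.** -/
def S_HARD : Prop := ∀ L : Set (List Bool), InNP L → ∃ f : List Bool → List Bool, PolyTime f ∧
  ∀ w, ∃ (n : ℕ) (G : SimpleGraph (Fin n)) (k : ℕ), f w = bits (adjMatrix G, k) ∧ Chordal G ∧
    NoOddSun G ∧ (w ∈ L ↔ ∃ D : Finset (Fin n), D.card ≤ k ∧ Dominating G D)

end Pool.Agent.Y600.DC
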