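import Pool.Agent.Y600.DC.Stm

/-!
# The gadget graph is chordal; an unbalanced example
-/

namespace Pool.Agent.Y600.DC

variable {S E : Type} {s t : E → S}

/-- the vertices which are not ears -/
def core : S ⊕ (E × Fin 5) → Prop
  | Sum.inl _ => True
  | Sum.inr (_, i) => i = 0 ∨ i = 1

theorem dadj_ll (x y : S) : (dGraph s t).Adj (Sum.inl x) (Sum.inl y) ↔ x ≠ y := by
  unfold dGraph
  simp [SimpleGraph.fromRel_adj, dAdj, eq_comm]

theorem dadj_lr (x : S) (e : E) (i : Fin 5) : (dGraph s t).Adj (Sum.inl x) (Sum.inr (e, i)) ↔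
    (i = 0 ∨ i = 1 ∨ (i = 2 ∧ x = s e) ∨ (i = 4 ∧ x = t e)) := by
  unfold dGraph
  simp [SimpleGraph.fromRel_adj, dAdj]

theorem dadj_rr (e f : E) (i j : Fin 5) : (dGraph s t).Adj (Sum.inr (e, i)) (Sum.inr (f, j)) ↔
    e = f ∧ (((i = 0 ∧ j = 1) ∨ (i = 0 ∧ j = 2) ∨ (i = 0 ∧ j = 3) ∨ (i = 1 ∧ j = 3) ∨
      (i = 1 ∧ j = 4)) ∨ ((j = 0 ∧ i = 1) ∨ (j = 0 ∧ i = 2) ∨ (j = 0 ∧ i = 3) ∨ (j = 1 ∧ i = 3) ∨
      (j = 1 ∧ i = 4))) := by
  unfold dGraph
  rw [SimpleGraph.fromRel_adj]
  constructor
  · rintro ⟨_, ⟨h1, h2⟩ | ⟨h1, h2⟩⟩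
    · exact ⟨h1, Or.inl h2⟩
    · exact ⟨h1.symm, Or.inr h2⟩
  · rintro ⟨rfl, h⟩
    refine ⟨?_, ?_⟩
    · intro h2
      simp only [Sum.inr.injEq, Prod.mk.injEq, true_and] at h2
      subst h2
      revert h
      revert i
      decide
    · rcases h with h | h
      · exact Or.inl ⟨rfl, h⟩
      · exact Or.inr ⟨rfl, h⟩

theorem dadj_rl (x : S) (e : E) (i : Fin 5) : (dGraph s t).Adj (Sum.inr (e, i)) (Sum.inl x) ↔
    (i = 0 ∨ i = 1 ∨ (i = 2 ∧ x = s e) ∨ (i = 4 ∧ x = t e)) := by
  rw [SimpleGraph.adj_comm, dadj_lr]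

/-- the two neighbours of an ear are adjacent -/
theorem ear_nbrs (z p q : S ⊕ (E × Fin 5)) (hz : ¬ core z) (hp : (dGraph s t).Adj z p)
    (hq : (dGraph s t).Adj z q) (hpq : p ≠ q) : (dGraph s t).Adj p q := by
  rcases z with x | ⟨e, i⟩
  · exact absurd trivial hz
  have hi : i = 2 ∨ i = 3 ∨ i = 4 := by
    have : ¬ (i = 0 ∨ i = 1) := hz
    clear hz hp hq hpq
    revert this
    revert i
    decide
  rcases p with x | ⟨f, j⟩ <;> rcases q with y | ⟨g, k⟩
  · rw [dadj_rl] at hp hq
    have hx : x = s e ∨ x = t e := by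
      rcases hp with rfl | rfl | h | h
      · simp at hi
      · simp at hi
      · exact Or.inl h.2
      · exact Or.inr h.2
    rw [dadj_ll]
    exact fun h => hpq (by rw [h])
  · rw [dadj_rl] at hp
    rw [dadj_rr] at hq
    rw [dadj_lr]
    obtain ⟨rfl, hq⟩ := hq
    fin_cases i <;> fin_cases k <;> simp_all
  · rw [dadj_rl] at hq
    rw [dadj_rr] at hp
    rw [dadj_rl]
    obtain ⟨rfl, hp⟩ := hp
    fin_cases i <;> fin_cases j <;> simp_all
  · rw [dadj_rr] at hp hq
    obtain ⟨rfl, hp⟩ := hp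
    obtain ⟨rfl, hq⟩ := hq
    rw [dadj_rr]
    refine ⟨rfl, ?_⟩
    have hjk : j ≠ k := fun h => hpq (by rw [h])
    clear hpq hz
    rcases hi with rfl | rfl | rfl <;> fin_cases j <;> fin_cases k <;> simp_all

/-- a vertex of `S` is adjacent to all other core vertices -/
theorem s_core (x : S) (p : S ⊕ (E × Fin 5)) (hp : core p) (hne : Sum.inl x ≠ p) :
    (dGraph s t).Adj (Sum.inl x) p := by
  rcases p with y | ⟨e, i⟩
  · rw [dadj_ll]
    exact fun h => hne (by rw [h])
  · rw [dadj_lr]
    rcases hp with h | h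
    · exact Or.inl h
    · exact Or.inr (Or.inl h)

theorem chd : S_CHD := by
  intro S E s t m hm c hc h
  have : NeZero m := ⟨by omega⟩
  have k1 : ((1 : ℕ) : ZMod m) ≠ 0 := by
    rw [Ne, ZMod.natCast_eq_zero_iff]
    exact fun h => by have := Nat.le_of_dvd (by norm_num) h; omega
  have k2 : ((2 : ℕ) : ZMod m) ≠ 0 := by
    rw [Ne, ZMod.natCast_eq_zero_iff]
    exact fun h => by have := Nat.le_of_dvd (by norm_num) h; omega
  have k3 : ((3 : ℕ) : ZMod m) ≠ 0 := by
    rw [Ne, ZMod.natCast_eq_zero_iff]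
    exact fun h => by have := Nat.le_of_dvd (by norm_num) h; omega
  push_cast at k1 k2 k3
  by_cases hear : ∃ i, ¬ core (c (i + 1))
  · obtain ⟨i, hi⟩ := hear
    refine ⟨i, i + 2, ?_, ?_, ?_⟩
    · intro h4
      apply k1
      linear_combination h4
    · intro h4
      apply k3
      linear_combination -h4
    · refine ear_nbrs (c (i + 1)) _ _ hi (h i).symm ?_ ?_
      · have := h (i + 1)
        rwa [show i + 1 + 1 = i + 2 by ring] at this
      · intro h4
        have h5 := hc h4
        apply k2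
        linear_combination -h5
  · push Not at hear
    have hcore : ∀ i, core (c i) := by
      intro i
      have := hear (i - 1)
      rwa [sub_add_cancel] at this
    by_cases hS : ∃ i x, c i = Sum.inl x
    · obtain ⟨i, x, hi⟩ := hS
      refine ⟨i, i + 2, ?_, ?_, ?_⟩
      · intro h4
        apply k1
        linear_combination h4
      · intro h4
        apply k3
        linear_combination -h4
      · rw [hi]
        refine s_core x _ (hcore _) ?_
        rw [← hi]
        intro h4
        have h5 := hc h4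
        apply k2
        linear_combination -h5
    · exfalso
      push Not at hS
      have hr : ∀ i, ∃ e, c i = Sum.inr (e, 0) ∨ c i = Sum.inr (e, 1) := by
        intro i
        rcases hci : c i with x | ⟨e, j⟩
        · exact absurd hci (hS i x)
        · have := hcore i
          rw [hci] at this
          rcases this with rfl | rfl
          · exact ⟨e, Or.inl rfl⟩
          · exact ⟨e, Or.inr rfl⟩
      choose e he using hr
      have hee : ∀ i, e i = e (i + 1) := by
        intro i
        have h1 := h i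
        rcases he i with h2 | h2 <;> rcases he (i + 1) with h3 | h3 <;> rw [h2, h3, dadj_rr] at h1 <;>
          exact h1.1
      have a1 := he 0
      have a2 := he (0 + 1)
      have a3 := he (0 + 1 + 1)
      rw [← hee (0 + 1), ← hee 0] at a3
      rw [← hee 0] at a2
      have n1 : c 0 ≠ c (0 + 1) := fun h4 => k1 (by have := hc h4; linear_combination -this)
      have n2 : c (0 + 1) ≠ c (0 + 1 + 1) := fun h4 => k1 (by have := hc h4; linear_combination -this)
      have n3 : c 0 ≠ c (0 + 1 + 1) := fun h4 => k2 (by have := hc h4; linear_combination -this)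
      rcases a1 with a1 | a1 <;> rcases a2 with a2 | a2 <;> rcases a3 with a3 | a3
      · exact n1 (a1.trans a2.symm)
      · exact n1 (a1.trans a2.symm)
      · exact n3 (a1.trans a3.symm)
      · exact n2 (a2.trans a3.symm)
      · exact n2 (a2.trans a3.symm)
      · exact n3 (a1.trans a3.symm)
      · exact n1 (a1.trans a2.symm)
      · exact n1 (a1.trans a2.symm)

end Pool.Agent.Y600.DC
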