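import Pool.Agent.Y600.DC.NB
import Pool.Agent.Y600.DC.Chd

/-!
# Domination in balanced chordal graphs: assembly
-/

namespace Pool.Agent.Y600.DC

open Pool.Agent.NPC Pool.Agent.NPC.R671

theorem rel_of_nb {V : Type} {G : SimpleGraph V} (h : NbBalanced G) :
    RelBalanced (fun i x : V => Close G i x) := by
  intro m ho hm e x hx hR
  refine h m ho hm e x ?_ hx hR
  intro i i' hi
  have : NeZero m := ⟨by omega⟩
  have h1 : ∀ j, (j = i ∨ j = i + 1) ↔ (j = i' ∨ j = i' + 1) := fun j => by
    rw [← hR i j, ← hR i' j, hi]
  have h2 := (h1 i).1 (Or.inl rfl)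
  have h3 := (h1 i').2 (Or.inl rfl)
  have k2 : ((2 : ℕ) : ZMod m) ≠ 0 := by
    rw [Ne, ZMod.natCast_eq_zero_iff]
    exact fun h => by have := Nat.le_of_dvd (by norm_num) h; omega
  push_cast at k2
  rcases h2 with h2 | h2
  · exact h2
  · rcases h3 with h3 | h3
    · exact h3.symm
    · exfalso
      apply k2
      linear_combination -h2 - h3

/-- the algorithm decides domination on all graphs with balanced closed neighbourhoods -/
theorem poly_part (hround : S_ROUND) (hmwu : S_MWU) (halg : S_ALG) :
    ∃ A : List Bool → List Bool, PolyTime A ∧ ∀ (n : ℕ) (G : SimpleGraph (Fin n)) (k : ℕ),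
      NbBalanced G → (A (bits (adjMatrix G, k)) = [true] ↔
        ∃ D : Finset (Fin n), D.card ≤ k ∧ Dominating G D) := by
  classical
  obtain ⟨A, hA, hA0, hA1⟩ := halg
  refine ⟨A, hA, fun n G k hG => ?_⟩
  rcases Nat.eq_zero_or_pos n with rfl | hn
  · exact ⟨fun _ => ⟨∅, by simp, fun v => v.elim0⟩, fun _ => hA0 G k⟩
  · obtain ⟨pick, hgr, hiff⟩ := hA1 n G k hn
    rw [hiff]
    have hr : 1 ≤ rounds n := by
      unfold rounds
      have : 0 < (n + 1) ^ 4 := by positivity
      omega
    constructor
    · intro h
      -- the counts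
      let a : Fin n → ℕ := fun u => ((Finset.range (rounds n)).filter (fun τ => pick τ = u)).card
      have hsum : ∑ u, a u = rounds n := by
        have := Finset.card_eq_sum_card_fiberwise (f := pick) (s := Finset.range (rounds n))
          (t := Finset.univ) (fun _ _ => Finset.mem_coe.2 (Finset.mem_univ _))
        rw [Finset.card_range] at this
        exact this.symm
      have hcnt : ∀ v, ∑ u ∈ Finset.univ.filter (fun u => Close G v u), a u =
          cnt G pick (rounds n) v := by
        intro v
        have := Finset.card_eq_sum_card_fiberwise (f := pick)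
          (s := (Finset.range (rounds n)).filter (fun τ => Close G v (pick τ)))
          (t := Finset.univ.filter (fun u => Close G v u)) (fun τ hτ => by
            have := (Finset.mem_filter.1 (Finset.mem_coe.1 hτ)).2
            simp [this])
        unfold cnt
        rw [this]
        refine Finset.sum_congr rfl fun u hu => ?_
        have hu' := (Finset.mem_filter.1 hu).2
        simp only [a]
        congr 1
        ext τ
        simp only [Finset.mem_filter, Finset.mem_range]
        constructor
        · rintro ⟨h1, rfl⟩
          exact ⟨⟨h1, hu'⟩, rfl⟩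
        · rintro ⟨⟨h1, _⟩, rfl⟩
          exact ⟨h1, rfl⟩
      -- the smallest count
      obtain ⟨v₀, _, hv₀⟩ := Finset.exists_min_image (Finset.univ : Finset (Fin n))
        (fun v => cnt G pick (rounds n) v) ⟨⟨0, hn⟩, Finset.mem_univ _⟩
      have hm1 : 1 ≤ cnt G pick (rounds n) v₀ := by
        by_contra h0
        have h00 : cnt G pick (rounds n) v₀ = 0 := by omega
        have := h v₀
        rw [h00] at this
        omega
      obtain ⟨D, hD1, hD2⟩ := hround (Fin n) (Fin n) (fun i x => Close G i x) (rel_of_nb hG) a
        (cnt G pick (rounds n) v₀) hm1 (fun i => by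
          have := hcnt i
          rw [this]
          exact hv₀ i (Finset.mem_univ _))
      refine ⟨D, ?_, ?_⟩
      · rw [hsum] at hD2
        have h3 := h v₀
        by_contra hlt
        have h4 : k + 1 ≤ D.card := by omega
        have h5 : (k + 1) * cnt G pick (rounds n) v₀ ≤ cnt G pick (rounds n) v₀ * D.card := by
          rw [Nat.mul_comm]
          exact Nat.mul_le_mul_left _ h4
        omega
      · intro v hv
        obtain ⟨x, hx, hvx⟩ := hD1 v
        rcases hvx with h6 | h6
        · exact absurd (h6 ▸ hx) hv
        · exact ⟨x, hx, h6⟩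
    · rintro ⟨D, hD1, hD2⟩ v
      refine lt_of_lt_of_le (hmwu n G pick hgr D hD2 v) ?_
      exact Nat.mul_le_mul_right _ (by omega)

end Pool.Agent.Y600.DC
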