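import Pool.Agent.H671R2.ZDefs

/-!
# Domination in balanced chordal graphs: definitions
-/

namespace Pool.Agent.Y600.DC

open Pool.Agent.NPC Pool.Agent.NPC.R671

variable {V : Type}

/-- A graph is chordal if every cycle `c 0, c 1, ..., c (m-1)` of `m ≥ 4` distinct vertices has a
chord: an edge between two vertices which are not consecutive on the cycle. -/
def Chordal (G : SimpleGraph V) : Prop :=
  ∀ m : ℕ, 4 ≤ m → ∀ c : ZMod m → V, Function.Injective c → (∀ i, G.Adj (c i) (c (i + 1))) →
    ∃ i j, j ≠ i + 1 ∧ i ≠ j + 1 ∧ G.Adj (c i) (c j)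

/-- The clique hypergraph of the graph is balanced: for every cycle `x 0, E 0, x 1, E 1, ...` of odd
length `m` (distinct vertices `x i`, distinct maximal cliques `E i`, with `x i, x (i+1) ∈ E i`) some
`E i` contains at least three of the vertices `x 0, x 1, ...`. -/
def Balanced (G : SimpleGraph V) : Prop :=
  ∀ m : ℕ, Odd m → 2 ≤ m → ∀ (x : ZMod m → V) (E : ZMod m → Set V), Function.Injective x →
    Function.Injective E → (∀ i, Maximal (fun s : Set V => G.IsClique s) (E i)) →
    (∀ i, x i ∈ E i ∧ x (i + 1) ∈ E i) → ∃ i, 3 ≤ {j | x j ∈ E i}.ncard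

/-- `D` is a dominating set: every vertex outside `D` has a neighbour in `D`. -/
def Dominating (G : SimpleGraph V) (D : Finset V) : Prop := ∀ v, v ∉ D → ∃ w ∈ D, G.Adj v w

/-- The graph contains the `r`-sun as an induced subgraph: a clique `u 0, ..., u (r-1)` and an
independent set `w 0, ..., w (r-1)` such that `w i` is adjacent exactly to `u i` and `u (i+1)`. -/
def HasSun (G : SimpleGraph V) (r : ℕ) : Prop :=
  ∃ u w : ZMod r → V, Function.Injective u ∧ Function.Injective w ∧ (∀ i j, u i ≠ w j) ∧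
    (∀ i j, i ≠ j → G.Adj (u i) (u j)) ∧ (∀ i j, ¬ G.Adj (w i) (w j)) ∧
    ∀ i j, G.Adj (w i) (u j) ↔ (j = i ∨ j = i + 1)

/-- There is no induced `r`-sun with `r` odd (`r ≥ 3`). -/
def NoOddSun (G : SimpleGraph V) : Prop := ∀ r : ℕ, 3 ≤ r → Odd r → ¬ HasSun G r

end Pool.Agent.Y600.DC
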