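import Pool.Agent.Y600.DC.Stm

/-!
# Closed neighbourhoods of balanced chordal graphs are balanced
-/

namespace Pool.Agent.Y600.DC

open Pool.Agent.NPC

variable {V : Type}

/-- Every edge of a cycle in a chordal graph lies in a triangle with a third vertex of the cycle. -/
theorem tri {G : SimpleGraph V} (hG : Chordal G) : ∀ m : ℕ, 3 ≤ m → ∀ f : ℕ → V,
    (∀ i j, i < m → j < m → f i = f j → i = j) → (∀ i, i + 1 < m → G.Adj (f i) (f (i + 1))) →
    G.Adj (f (m - 1)) (f 0) →
    ∃ k, 0 < k ∧ k < m - 1 ∧ G.Adj (f k) (f 0) ∧ G.Adj (f k) (f (m - 1)) := by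
  intro m
  induction m using Nat.strong_induction_on with
  | _ m ih =>
    intro hm f hf h1 h2
    rcases Nat.lt_or_ge 3 m with h4 | h4
    swap
    · have : m = 3 := by omega
      subst this
      exact ⟨1, by norm_num, by norm_num, (h1 0 (by norm_num)).symm, h1 1 (by norm_num)⟩
    · obtain ⟨m', rfl⟩ : ∃ m', m = m' + 1 := ⟨m - 1, by omega⟩
      have hv : ∀ i : ZMod (m' + 1), i.val < m' + 1 := fun i => ZMod.val_lt i
      have hval : ∀ i : ZMod (m' + 1), (i + 1).val = if i.val = m' then 0 else i.val + 1 := by
        intro i
        have : Fact (1 < m' + 1) := ⟨by omega⟩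
        rw [ZMod.val_add, ZMod.val_one]
        have := hv i
        split_ifs with h5
        · rw [h5, Nat.mod_self]
        · exact Nat.mod_eq_of_lt (by omega)
      have key : ∃ a b : ℕ, a < b ∧ b < m' + 1 ∧ b ≠ a + 1 ∧ ¬ (a = 0 ∧ b = m') ∧
          G.Adj (f a) (f b) := by
        obtain ⟨i, j, h3, h5, h6⟩ := hG (m' + 1) (by omega) (fun i => f i.val)
          (fun i j h => ZMod.val_injective _ (hf _ _ (hv i) (hv j) h))
          (fun i => by
            change G.Adj (f i.val) (f (i + 1).val)
            rw [hval i]
            have := hv i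
            split_ifs with h7
            · rw [h7]
              exact h2
            · exact h1 _ (by omega))
        have hne : i.val ≠ j.val := fun h => G.ne_of_adj h6 (by change f i.val = f j.val; rw [h])
        have n1 : ¬ (j.val = i.val + 1) := by
          intro h
          apply h3
          apply ZMod.val_injective
          rw [hval i, if_neg (by have := hv j; omega), h]
        have n2 : ¬ (i.val = j.val + 1) := by
          intro h
          apply h5
          apply ZMod.val_injective
          rw [hval j, if_neg (by have := hv i; omega), h]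
        have n3 : ¬ (i.val = m' ∧ j.val = 0) := by
          rintro ⟨h, h'⟩
          apply h3
          apply ZMod.val_injective
          rw [hval i, if_pos h, h']
        have n4 : ¬ (j.val = m' ∧ i.val = 0) := by
          rintro ⟨h, h'⟩
          apply h5
          apply ZMod.val_injective
          rw [hval j, if_pos h, h']
        rcases Nat.lt_or_ge i.val j.val with h7 | h7
        · exact ⟨i.val, j.val, h7, hv j, n1, fun h => n4 ⟨h.2, h.1⟩, h6⟩
        · exact ⟨j.val, i.val, by omega, hv i, n2, fun h => n3 ⟨h.2, h.1⟩, h6.symm⟩
      obtain ⟨a, b, hab, hb, hb1, hb2, hadj⟩ := key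
      -- the shortcut
      let d := b - a - 1
      let g : ℕ → V := fun t => if t ≤ a then f t else f (t + d)
      have gle : ∀ t, t ≤ a → g t = f t := fun t ht => if_pos ht
      have ggt : ∀ t, a < t → g t = f (t + d) := fun t ht => if_neg (by omega)
      have hd : d = b - a - 1 := rfl
      have e1 : m' + 1 - d - 1 + d = m' := by omega
      have glast : g (m' + 1 - d - 1) = f m' := by rw [ggt _ (by omega), e1]
      obtain ⟨k, k1, k2, k3, k4⟩ := ih (m' + 1 - d) (by omega) (by omega) g
        (by
          intro i j hi hj h
          rcases Nat.lt_or_ge a i with h3 | h3 <;> rcases Nat.lt_or_ge a j with h5 | h5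
          · rw [ggt i h3, ggt j h5] at h
            have := hf _ _ (by omega) (by omega) h
            omega
          · rw [ggt i h3, gle j h5] at h
            have := hf _ _ (by omega) (by omega) h
            omega
          · rw [gle i h3, ggt j h5] at h
            have := hf _ _ (by omega) (by omega) h
            omega
          · rw [gle i h3, gle j h5] at h
            exact hf _ _ (by omega) (by omega) h)
        (by
          intro i hi
          rcases Nat.lt_trichotomy i a with h3 | h3 | h3
          · rw [gle i (by omega), gle (i + 1) (by omega)]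
            exact h1 i (by omega)
          · subst h3
            rw [gle i le_rfl, ggt (i + 1) (by omega)]
            have : i + 1 + d = b := by omega
            rw [this]
            exact hadj
          · rw [ggt i h3, ggt (i + 1) (by omega)]
            have := h1 (i + d) (by omega)
            have e2 : i + 1 + d = i + d + 1 := by omega
            rw [e2]
            exact this)
        (by
          rw [glast, gle 0 (Nat.zero_le _)]
          exact h2)
      rw [glast] at k4
      rw [gle 0 (Nat.zero_le _)] at k3
      rcases Nat.lt_or_ge a k with h3 | h3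
      · rw [ggt k h3] at k3 k4
        exact ⟨k + d, by omega, by omega, k3, k4⟩
      · rw [gle k h3] at k3 k4
        exact ⟨k, k1, by omega, k3, k4⟩

/-- The fan lemma. -/
theorem fan {G : SimpleGraph V} (hG : Chordal G) (U W : ℕ → V) : ∀ n a b : ℕ, b = a + n → 1 ≤ n →
    (∀ i j, a ≤ i → i ≤ b → a ≤ j → j ≤ b → U i = U j → i = j) →
    (∀ i j, a < i → i ≤ b → a < j → j ≤ b → W i = W j → i = j) →
    (∀ i j, a ≤ i → i ≤ b → a < j → j ≤ b → U i ≠ W j) →
    (∀ k j, a < k → k ≤ b → a ≤ j → j ≤ b → (G.Adj (W k) (U j) ↔ (j = k ∨ j + 1 = k))) →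
    G.Adj (U a) (U b) → ∀ i, a ≤ i → i < b → G.Adj (U i) (U (i + 1)) := by
  intro n
  induction n using Nat.strong_induction_on with
  | _ n ih =>
    intro a b hb hn hU hW hUW hadj hab i hi1 hi2
    rcases Nat.lt_or_ge n 2 with h2 | h2
    · have : n = 1 := by omega
      have hib : i = a := by omega
      subst hib
      have : i + 1 = b := by omega
      rw [this]
      exact hab
    · let f : ℕ → V := fun t => if t % 2 = 0 then U (a + t / 2) else W (a + (t + 1) / 2)
      have fe : ∀ t, f (2 * t) = U (a + t) := by
        intro t
        have h1 : (2 * t) % 2 = 0 := by omega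
        have h3 : (2 * t) / 2 = t := by omega
        simp only [f, h1, h3, if_true]
      have fo : ∀ t, f (2 * t + 1) = W (a + (t + 1)) := by
        intro t
        have h1 : ¬ (2 * t + 1) % 2 = 0 := by omega
        have h3 : (2 * t + 1 + 1) / 2 = t + 1 := by omega
        simp only [f, h1, h3, if_false]
      have par : ∀ t, (∃ s, t = 2 * s) ∨ ∃ s, t = 2 * s + 1 := fun t => by
        rcases Nat.even_or_odd t with ⟨s, hs⟩ | ⟨s, hs⟩
        · exact Or.inl ⟨s, by omega⟩
        · exact Or.inr ⟨s, hs⟩
      obtain ⟨k, k1, k2, k3, k4⟩ := tri hG (2 * n + 1) (by omega) f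
        (by
          intro i j hi hj h
          rcases par i with ⟨s, rfl⟩ | ⟨s, rfl⟩ <;> rcases par j with ⟨t, rfl⟩ | ⟨t, rfl⟩
          · rw [fe, fe] at h
            have := hU _ _ (by omega) (by omega) (by omega) (by omega) h
            omega
          · rw [fe, fo] at h
            exact absurd h (hUW _ _ (by omega) (by omega) (by omega) (by omega))
          · rw [fe, fo] at h
            exact absurd h.symm (hUW _ _ (by omega) (by omega) (by omega) (by omega))
          · rw [fo, fo] at h
            have := hW _ _ (by omega) (by omega) (by omega) (by omega) h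
            omega)
        (by
          intro i hi
          rcases par i with ⟨s, rfl⟩ | ⟨s, rfl⟩
          · rw [fe, fo]
            exact ((hadj _ _ (by omega) (by omega) (by omega) (by omega)).2
              (Or.inr (by omega))).symm
          · have e : 2 * s + 1 + 1 = 2 * (s + 1) := by omega
            rw [fo, e, fe]
            exact (hadj _ _ (by omega) (by omega) (by omega) (by omega)).2 (Or.inl rfl))
        (by
          have e : 2 * n + 1 - 1 = 2 * n := by omega
          have e0 : (0 : ℕ) = 2 * 0 := rfl
          rw [e, e0, fe, fe]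
          have e3 : a + n = b := by omega
          rw [e3]
          exact hab.symm)
      have e : 2 * n + 1 - 1 = 2 * n := by omega
      have e0 : f 0 = U a := by
        have := fe 0
        simpa using this
      have e3 : a + n = b := by omega
      rw [e, fe, e3] at k4
      rw [e0] at k3
      rcases par k with ⟨s, rfl⟩ | ⟨s, rfl⟩
      · rw [fe] at k3 k4
        have hs1 : 0 < s := by omega
        have hs2 : s < n := by omega
        rcases Nat.lt_or_ge i (a + s) with h3 | h3
        · exact ih s hs2 a (a + s) rfl hs1
            (fun i j h5 h6 h7 h8 => hU i j h5 (by omega) h7 (by omega))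
            (fun i j h5 h6 h7 h8 => hW i j h5 (by omega) h7 (by omega))
            (fun i j h5 h6 h7 h8 => hUW i j h5 (by omega) h7 (by omega))
            (fun i j h5 h6 h7 h8 => hadj i j h5 (by omega) h7 (by omega)) k3.symm i hi1 h3
        · exact ih (n - s) (by omega) (a + s) b (by omega) (by omega)
            (fun i j h5 h6 h7 h8 => hU i j (by omega) h6 (by omega) h8)
            (fun i j h5 h6 h7 h8 => hW i j (by omega) h6 (by omega) h8)
            (fun i j h5 h6 h7 h8 => hUW i j (by omega) h6 (by omega) h8)
            (fun i j h5 h6 h7 h8 => hadj i j (by omega) h6 (by omega) h8) k4 i h3 hi2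
      · rw [fo] at k3 k4
        have h3 := (hadj _ _ (by omega) (by omega) (by omega) (by omega)).1 k3
        have h5 := (hadj _ _ (by omega) (by omega) (by omega) (by omega)).1 k4
        omega

/-- The graph with every vertex replaced by two adjacent twins. -/
def twin (G : SimpleGraph V) : SimpleGraph (V × Bool) where
  Adj p q := p ≠ q ∧ Close G p.1 q.1
  symm := ⟨fun p q h => ⟨h.1.symm, by
    rcases h.2 with h2 | h2
    · exact Or.inl h2.symm
    · exact Or.inr h2.symm⟩⟩
  loopless := ⟨fun p h => h.1 rfl⟩

theorem twin_chordal {G : SimpleGraph V} (hG : Chordal G) : Chordal (twin G) := by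
  intro m hm c hc h
  have : NeZero m := ⟨by omega⟩
  have : Fact (1 < m) := ⟨by omega⟩
  by_cases hinj : Function.Injective (fun i => (c i).1)
  · obtain ⟨i, j, h1, h2, h3⟩ := hG m hm (fun i => (c i).1) hinj (fun i => by
      rcases (h i).2 with h4 | h4
      · have h5 : i = i + 1 := hinj h4
        exact absurd (congrArg c h5) (h i).1
      · exact h4)
    exact ⟨i, j, h1, h2, fun h4 => G.ne_of_adj h3 (by rw [h4]), Or.inr h3⟩
  · simp only [Function.Injective, not_forall] at hinj
    obtain ⟨i, j, hij, hne⟩ := hinj
    have hcl : Close G (c i).1 (c j).1 := Or.inl hij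
    have hcne : c i ≠ c j := fun h4 => hne (hc h4)
    have one : ∀ i j : ZMod m, (c i).1 = (c j).1 → j = i + 1 →
        ∃ i j, j ≠ i + 1 ∧ i ≠ j + 1 ∧ (twin G).Adj (c i) (c j) := by
      intro i j hij hj
      have h2 : ((2 : ℕ) : ZMod m) ≠ 0 := by
        rw [Ne, ZMod.natCast_eq_zero_iff]
        exact fun h => by have := Nat.le_of_dvd (by norm_num) h; omega
      have h1' : ((1 : ℕ) : ZMod m) ≠ 0 := by
        rw [Ne, ZMod.natCast_eq_zero_iff]
        exact fun h => by have := Nat.le_of_dvd (by norm_num) h; omega
      have h3' : ((3 : ℕ) : ZMod m) ≠ 0 := by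
        rw [Ne, ZMod.natCast_eq_zero_iff]
        exact fun h => by have := Nat.le_of_dvd (by norm_num) h; omega
      push_cast at h2 h1' h3'
      refine ⟨i, j + 1, ?_, ?_, ?_, ?_⟩
      · rw [hj]
        intro h4
        apply h1'
        linear_combination h4
      · rw [hj]
        intro h4
        apply h3'
        linear_combination -h4
      · intro h4
        have h5 := hc h4
        rw [hj] at h5
        apply h2
        linear_combination -h5
      · rw [hij]
        exact (h j).2
    by_cases h1 : j = i + 1
    · exact one i j hij h1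
    · by_cases h2 : i = j + 1
      · exact one j i hij.symm h2
      · exact ⟨i, j, h1, h2, hcne, hcl⟩

/-- consecutive closeness contradicts balancedness of the clique hypergraph -/
theorem fin_step [Finite V] {G : SimpleGraph V} (hB : Balanced G) {m : ℕ} (ho : Odd m) (hm : 3 ≤ m)
    (x y : ZMod m → V) (hx : Function.Injective x)
    (hxy : ∀ i j, Close G (y i) (x j) ↔ (j = i ∨ j = i + 1)) (hxx : ∀ i, Close G (x i) (x (i + 1))) :
    False := by
  classical
  have : NeZero m := ⟨by omega⟩
  have hcl : ∀ i, G.IsClique ({x i, x (i + 1), y i} : Set V) := by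
    intro i p hp q hq hpq
    have c1 : Close G (x i) (x (i + 1)) := hxx i
    have c2 : Close G (y i) (x i) := (hxy i i).2 (Or.inl rfl)
    have c3 : Close G (y i) (x (i + 1)) := (hxy i (i + 1)).2 (Or.inr rfl)
    have toAdj : ∀ p q, Close G p q → p ≠ q → G.Adj p q := fun p q h h' => h.resolve_left h'
    have toAdj' : ∀ p q, Close G q p → p ≠ q → G.Adj p q := fun p q h h' =>
      (h.resolve_left (Ne.symm h')).symm
    simp only [Set.mem_insert_iff, Set.mem_singleton_iff] at hp hq
    rcases hp with rfl | rfl | rfl <;> rcases hq with rfl | rfl | rfl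
    · exact absurd rfl hpq
    · exact toAdj _ _ c1 hpq
    · exact toAdj' _ _ c2 hpq
    · exact toAdj' _ _ c1 hpq
    · exact absurd rfl hpq
    · exact toAdj' _ _ c3 hpq
    · exact toAdj _ _ c2 hpq
    · exact toAdj _ _ c3 hpq
    · exact absurd rfl hpq
  have hmax : ∀ i, ∃ K : Set V, ({x i, x (i + 1), y i} : Set V) ⊆ K ∧
      Maximal (fun s : Set V => G.IsClique s) K := by
    intro i
    obtain ⟨K, h1, h2⟩ := (Set.toFinite {s : Set V | G.IsClique s}).exists_le_maximal (hcl i)
    exact ⟨K, h1, h2⟩
  choose K hK1 hK2 using hmax
  have hK3 : ∀ i, {j | x j ∈ K i} = {i, i + 1} := by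
    intro i
    ext j
    simp only [Set.mem_ofPred_eq, Set.mem_insert_iff, Set.mem_singleton_iff]
    constructor
    · intro hj
      have hy : y i ∈ K i := hK1 i (by simp)
      rw [← hxy i j]
      by_cases he : y i = x j
      · exact Or.inl he
      · exact Or.inr ((hK2 i).prop hy hj he)
    · rintro (rfl | rfl)
      · exact hK1 _ (by simp)
      · exact hK1 _ (by simp)
  have h2 : ((2 : ℕ) : ZMod m) ≠ 0 := by
    rw [Ne, ZMod.natCast_eq_zero_iff]
    exact fun h => by have := Nat.le_of_dvd (by norm_num) h; omega
  push_cast at h2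
  obtain ⟨i, hi⟩ := hB m ho (by omega) x K hx (by
    intro i j hij
    have h3 : ({i, i + 1} : Set (ZMod m)) = {j, j + 1} := by rw [← hK3 i, ← hK3 j, hij]
    have h4 : i ∈ ({j, j + 1} : Set (ZMod m)) := by rw [← h3]; simp
    have h5 : j ∈ ({i, i + 1} : Set (ZMod m)) := by rw [h3]; simp
    simp only [Set.mem_insert_iff, Set.mem_singleton_iff] at h4 h5
    rcases h4 with h4 | h4
    · exact h4
    · rcases h5 with h5 | h5
      · exact h5.symm
      · exfalso
        apply h2
        linear_combination -h4 - h5) hK2
    (fun i => ⟨hK1 i (by simp), hK1 i (by simp)⟩)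
  rw [hK3 i] at hi
  have h6 : ({i, i + 1} : Set (ZMod m)).ncard ≤ 2 := by
    refine (Set.ncard_insert_le _ _).trans ?_
    rw [Set.ncard_singleton]
  omega

theorem nb : S_NB := by
  intro V _ G hG hB m ho hm u v hu hv huv
  have : NeZero m := ⟨by omega⟩
  have hG' := twin_chordal hG
  -- sequences
  let U : ℕ → V × Bool := fun i => (u (i : ZMod m), false)
  let W : ℕ → V × Bool := fun i => (v (i : ZMod m), true)
  have cast_inj : ∀ i j : ℕ, i < m → j < m → ((i : ZMod m) = (j : ZMod m)) → i = j := by
    intro i j hi hj h
    have := congrArg ZMod.val h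
    rwa [ZMod.val_natCast_of_lt hi, ZMod.val_natCast_of_lt hj] at this
  have hUW : ∀ i j, U i ≠ W j := fun i j h => by
    have := congrArg Prod.snd h
    simp [U, W] at this
  have hUi : ∀ i j, i < m → j < m → U i = U j → i = j := fun i j hi hj h =>
    cast_inj i j hi hj (hu (congrArg Prod.fst h))
  have hWi : ∀ i j, i < m → j < m → W i = W j → i = j := fun i j hi hj h =>
    cast_inj i j hi hj (hv (congrArg Prod.fst h))
  have close_symm : ∀ p q, Close G p q ↔ Close G q p := fun p q =>
    ⟨fun h => h.elim (fun h => Or.inl h.symm) (fun h => Or.inr h.symm),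
      fun h => h.elim (fun h => Or.inl h.symm) (fun h => Or.inr h.symm)⟩
  have adjUW : ∀ i j, (twin G).Adj (U i) (W j) ↔
      (((j : ℕ) : ZMod m) = (i : ZMod m) ∨ ((j : ℕ) : ZMod m) = (i : ZMod m) + 1) := by
    intro i j
    rw [← huv]
    exact ⟨fun h => h.2, fun h => ⟨hUW i j, h⟩⟩
  have adjWU : ∀ k j, k < m → j < m → 0 < k → ((twin G).Adj (W k) (U j) ↔ (j = k ∨ j + 1 = k)) := by
    intro k j hk hj hk0
    rw [SimpleGraph.adj_comm, adjUW]
    constructor
    · rintro (h | h)
      · exact Or.inl (cast_inj _ _ hk hj h).symm
      · right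
        rcases Nat.lt_or_ge (j + 1) m with h3 | h3
        · exact (cast_inj k (j + 1) hk h3 (by push_cast; exact h)).symm
        · exfalso
          have hj' : j + 1 = m := by omega
          have : ((k : ℕ) : ZMod m) = ((0 : ℕ) : ZMod m) := by
            rw [h]
            have h5 : ((j + 1 : ℕ) : ZMod m) = 0 := by rw [hj']; exact ZMod.natCast_self m
            push_cast at h5 ⊢
            exact h5
          have := cast_inj k 0 hk (by omega) this
          omega
    · rintro (rfl | rfl)
      · exact Or.inl rfl
      · right
        push_cast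
        rfl
  -- the whole cycle
  let f : ℕ → V × Bool := fun t => if t % 2 = 0 then W (t / 2) else U (t / 2)
  have fe : ∀ t, f (2 * t) = W t := by
    intro t
    have h1 : (2 * t) % 2 = 0 := by omega
    have h3 : (2 * t) / 2 = t := by omega
    simp only [f, h1, h3, if_true]
  have fo : ∀ t, f (2 * t + 1) = U t := by
    intro t
    have h1 : ¬ (2 * t + 1) % 2 = 0 := by omega
    have h3 : (2 * t + 1) / 2 = t := by omega
    simp only [f, h1, h3, if_false]
  have par : ∀ t, (∃ s, t = 2 * s) ∨ ∃ s, t = 2 * s + 1 := fun t => by
    rcases Nat.even_or_odd t with ⟨s, hs⟩ | ⟨s, hs⟩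
    · exact Or.inl ⟨s, by omega⟩
    · exact Or.inr ⟨s, hs⟩
  obtain ⟨k, k1, k2, k3, k4⟩ := tri hG' (2 * m) (by omega) f
    (by
      intro i j hi hj h
      rcases par i with ⟨s, rfl⟩ | ⟨s, rfl⟩ <;> rcases par j with ⟨t, rfl⟩ | ⟨t, rfl⟩
      · rw [fe, fe] at h
        have := hWi _ _ (by omega) (by omega) h
        omega
      · rw [fe, fo] at h
        exact absurd h.symm (hUW _ _)
      · rw [fe, fo] at h
        exact absurd h (hUW _ _)
      · rw [fo, fo] at h
        have := hUi _ _ (by omega) (by omega) h
        omega)
    (by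
      intro i hi
      rcases par i with ⟨s, rfl⟩ | ⟨s, rfl⟩
      · rw [fe, fo, SimpleGraph.adj_comm, adjUW]
        exact Or.inl rfl
      · have e : 2 * s + 1 + 1 = 2 * (s + 1) := by omega
        rw [fo, e, fe, adjUW]
        right
        push_cast
        rfl)
    (by
      have e : 2 * m - 1 = 2 * (m - 1) + 1 := by omega
      have e0 : f 0 = W 0 := by simpa using fe 0
      rw [e, fo, e0, adjUW]
      right
      have h5 : ((m - 1 + 1 : ℕ) : ZMod m) = 0 := by
        rw [Nat.sub_add_cancel (by omega)]
        exact ZMod.natCast_self m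
      push_cast at h5 ⊢
      exact h5.symm)
  have e : 2 * m - 1 = 2 * (m - 1) + 1 := by omega
  have e0 : f 0 = W 0 := by simpa using fe 0
  rw [e0] at k3
  rw [e, fo] at k4
  have zero_of : (((m - 1 : ℕ)) : ZMod m) + 1 = 0 := by
    have h5 : ((m - 1 + 1 : ℕ) : ZMod m) = 0 := by
      rw [Nat.sub_add_cancel (by omega)]
      exact ZMod.natCast_self m
    push_cast at h5 ⊢
    exact h5
  rcases par k with ⟨s, rfl⟩ | ⟨s, rfl⟩
  · -- case A
    rw [fe] at k3 k4
    have hs0 : 0 < s := by omega
    have h3 := (adjWU s (m - 1) (by omega) (by omega) hs0).1 k4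
    have hs : s = m - 1 := by omega
    rw [hs] at k3
    have hfan := fan hG' W (fun i => U (i - 1)) (m - 1) 0 (m - 1) (by omega) (by omega)
      (fun i j _ h5 _ h6 h => hWi i j (by omega) (by omega) h)
      (fun i j h5 h6 h7 h8 h => by
        have := hUi _ _ (by omega) (by omega) h
        omega)
      (fun i j _ _ _ _ h => hUW _ _ h.symm)
      (fun k j h5 h6 h7 h8 => by
        rw [adjUW]
        have e5 : (((k - 1 : ℕ)) : ZMod m) + 1 = ((k : ℕ) : ZMod m) := by
          have : ((k - 1 + 1 : ℕ) : ZMod m) = ((k : ℕ) : ZMod m) := by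
            rw [Nat.sub_add_cancel (by omega)]
          push_cast at this ⊢
          exact this
        rw [e5]
        constructor
        · rintro (h | h)
          · right
            have := cast_inj j (k - 1) (by omega) (by omega) h
            omega
          · left
            exact cast_inj j k (by omega) (by omega) h
        · rintro (h | h)
          · right
            rw [h]
          · left
            rw [← h, Nat.add_sub_cancel])
      k3.symm
    refine fin_step hB ho hm v u hv huv fun i => ?_
    have hi : ((i.val : ℕ) : ZMod m) = i := ZMod.natCast_zmod_val i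
    rcases Nat.lt_or_ge i.val (m - 1) with h5 | h5
    · have := (hfan i.val (Nat.zero_le _) h5).2
      change Close G (v ((i.val : ℕ) : ZMod m)) (v ((i.val + 1 : ℕ) : ZMod m)) at this
      rw [hi] at this
      push_cast at this
      rw [hi] at this
      exact this
    · have h6 : i.val = m - 1 := by have := ZMod.val_lt i; omega
      have h7 : i + 1 = 0 := by
        rw [← hi, h6]
        exact zero_of
      have := k3.2
      change Close G (v (((m - 1 : ℕ)) : ZMod m)) (v ((0 : ℕ) : ZMod m)) at this
      rw [← h6, hi] at this
      rw [h7]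
      push_cast at this
      exact this
  · -- case B
    rw [fo] at k3 k4
    have h3 := (adjUW s 0).1 k3
    have hs1 : s < m - 1 := by omega
    have hs : s = 0 := by
      rcases h3 with h3 | h3
      · exact (cast_inj 0 s (by omega) (by omega) h3).symm
      · exfalso
        have := cast_inj 0 (s + 1) (by omega) (by omega) (by push_cast at h3 ⊢; exact h3)
        omega
    rw [hs] at k4
    have hfan := fan hG' U W (m - 1) 0 (m - 1) (by omega) (by omega)
      (fun i j _ h5 _ h6 h => hUi i j (by omega) (by omega) h)
      (fun i j h5 h6 h7 h8 h => hWi i j (by omega) (by omega) h)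
      (fun i j _ _ _ _ => hUW _ _)
      (fun k j h5 h6 h7 h8 => adjWU k j (by omega) (by omega) h5) k4
    have hxx : ∀ i : ZMod m, Close G (u i) (u (i + 1)) := by
      intro i
      have hi : ((i.val : ℕ) : ZMod m) = i := ZMod.natCast_zmod_val i
      rcases Nat.lt_or_ge i.val (m - 1) with h5 | h5
      · have := (hfan i.val (Nat.zero_le _) h5).2
        change Close G (u ((i.val : ℕ) : ZMod m)) (u ((i.val + 1 : ℕ) : ZMod m)) at this
        rw [hi] at this
        push_cast at this
        rw [hi] at this
        exact this
      · have h6 : i.val = m - 1 := by have := ZMod.val_lt i; omega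
        have h7 : i + 1 = 0 := by
          rw [← hi, h6]
          exact zero_of
        have := k4.2
        change Close G (u ((0 : ℕ) : ZMod m)) (u (((m - 1 : ℕ)) : ZMod m)) at this
        rw [← h6, hi] at this
        rw [h7]
        push_cast at this
        exact (close_symm _ _).1 this
    refine fin_step hB ho hm u (fun i => v (i + 1)) hu (fun i j => ?_) hxx
    rw [close_symm, huv]
    constructor
    · rintro (h | h)
      · exact Or.inr h.symm
      · exact Or.inl (add_right_cancel h).symm
    · rintro (h | h)
      · exact Or.inr (by rw [h])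
      · exact Or.inl h.symm

end Pool.Agent.Y600.DC
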